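import Pool.Agent.H.MP_42e49e_nt.Mul4

/-!
# MP_42e49e : multiple coverings of an interval by one residue class for each prime

For an arbitrary choice of one residue class `a p` modulo each prime `p ≤ x` and
`y ≥ x ^ (1 + exp (-exp r))`, many of the integers `1, …, y` lie in at most `r + 45` of the classes. In
particular, if the classes cover `{1, …, y}` at least `r + 46` times, then
`y < x ^ (1 + exp (-exp r))`; and if `y ≥ e x`, some integer lies in at most `log log log x + 46` of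
the classes.
-/

set_option autoImplicit false

namespace Pool.Agent.Results.MP_42e49e_nt.MultipleCoverings

open Finset Pool.MP42e49e Pool.MP42e49e.M
open Pool.Agent.H.MP_3e6494_nt (prm mem_prm)

/-- For all large `x`, all `r` and `y ≥ x ^ (1 + exp (-exp r))` and all residue classes `a p` modulo the
primes `p ≤ x`, at least `y / log x` of the integers `1, …, y` lie in at most `r + 45` of the
classes. -/
theorem result : ∃ x₀ : ℕ, ∀ x y r : ℕ, x₀ ≤ x →
    (x : ℝ) ^ (1 + Real.exp (-Real.exp r)) ≤ y → ∀ a : ℕ → ℤ,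
      (y : ℝ) / Real.log x ≤
        ({n : ℕ | 1 ≤ n ∧ n ≤ y ∧
          {p : ℕ | p.Prime ∧ p ≤ x ∧ (n : ℤ) ≡ a p [ZMOD (p : ℤ)]}.ncard ≤ r + 45}.ncard : ℝ) := by
  classical
  refine ⟨⌈Real.exp (Real.exp T0)⌉₊, ?_⟩
  intro x y r hx hy a
  have hx' : Real.exp (Real.exp T0) ≤ x := (Nat.le_ceil _).trans (by exact_mod_cast hx)
  have hb : ∀ p : ℕ, ∃ c : ℕ, p.Prime → ∀ n : ℕ, (p ∣ c + n ↔ (n : ℤ) ≡ a p [ZMOD (p : ℤ)]) := by
    intro p
    by_cases hp : p.Prime
    · obtain ⟨c, -, hc⟩ := exists_class_one hp.pos (a p)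
      refine ⟨c, fun _ n => ?_⟩
      rw [hc n, Int.modEq_iff_dvd, dvd_sub_comm]
    · exact ⟨0, fun h => absurd h hp⟩
  choose b hb using hb
  refine (large hx' hy b).trans (le_of_eq ?_)
  have hS : ∀ n : ℕ, {p : ℕ | p.Prime ∧ p ≤ x ∧ (n : ℤ) ≡ a p [ZMOD (p : ℤ)]}.ncard =
      hits b x n := by
    intro n
    unfold hits
    rw [← Set.ncard_coe_finset]
    congr 1
    ext p
    simp only [Set.mem_setOf_eq, coe_filter, mem_prm]
    constructor
    · rintro ⟨h1, h2, h3⟩
      exact ⟨⟨h1, h2⟩, (hb p h1 n).2 h3⟩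
    · rintro ⟨⟨h1, h2⟩, h3⟩
      exact ⟨h1, h2, (hb p h1 n).1 h3⟩
  rw [← Set.ncard_coe_finset]
  congr 2
  ext n
  simp only [Set.mem_setOf_eq, coe_filter, mem_Icc]
  rw [hS n, and_assoc, add_comm 45 r]

end Pool.Agent.Results.MP_42e49e_nt.MultipleCoverings
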