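import Pool.Agent.H.MP_42e49e_nt.ER.FinD

/-!
# MP_42e49e : coverings of an interval and popular integers

Choose one residue class `a p` modulo each prime `p ≤ x` such that the classes cover `{1, …, y}`, and
let `y = x * exp u ≤ x ^ 2`. Then every integer `b` of `[0, y]` is missed by the classes of many
primes of `(z, x]`. In particular (`partC`, `partB`): if `y ≥ x ^ (1 + ε)`, no integer is in the
classes of almost all primes of `(x ^ c, x]`, and no covering of Erdős-Rankin type (`a p ≡ b` for all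
primes `z < p ≤ x / K`, the other classes are arbitrary) covers an interval of length
`x * exp (C * (√(log K * log z) + log K))`.
-/

set_option autoImplicit false

namespace Pool.Agent.Results.MP_42e49e_nt.PopularInteger

/-- There are `c > 0` and `x0` such that for all `x ≥ x0`, `y = x * exp u ≤ x ^ 2` and
`exp (√(log x)) ≤ z ≤ x ^ c` with `√(log z) ≤ c * u`: if the residue classes `a p` modulo the primes
`p ≤ x` cover `{1, …, y}`, then for every natural number `b ≤ y` the sum of `1 / p` over the primes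
`z < p ≤ x` with `a p ≢ b` modulo `p` is at least `c * u ^ 2 / ((u + log z) * log x)`. -/
theorem result : ∃ c : ℝ, 0 < c ∧ ∃ x0 : ℕ, ∀ (x y b : ℕ) (z u : ℝ) (a : ℕ → ℕ), x0 ≤ x →
    (y : ℝ) = x * Real.exp u → y ≤ x ^ 2 →
    Real.exp (Real.sqrt (Real.log x)) ≤ z → z ≤ (x : ℝ) ^ c → Real.sqrt (Real.log z) ≤ c * u →
    b ≤ y →
    (∀ n : ℕ, 1 ≤ n → n ≤ y → ∃ p : ℕ, p.Prime ∧ p ≤ x ∧ n ≡ a p [MOD p]) →
    c * u ^ 2 / ((u + Real.log z) * Real.log x) ≤
      ∑ p ∈ (Finset.Icc 1 x).filter (fun p : ℕ => p.Prime ∧ z < p ∧ ¬ a p ≡ b [MOD p]),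
        1 / (p : ℝ) :=
  Pool.MP42e49e.ER.partD

end Pool.Agent.Results.MP_42e49e_nt.PopularInteger
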