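import Pool.Agent.H.MP_42e49e_nt.R2Main

/-!
# MP_42e49e : random residue classes for the medium primes

Almost no choice of the residue classes for the primes in `(x^(η / log log x), x^θ]`, `θ > 1/e`, can
be completed to a covering of `[1, x (log x)^(1 - η)]`.
-/

set_option autoImplicit false

namespace Pool.Agent.Results.MP_42e49e_nt.RandomMediumClasses

/-- Let `1/e < θ < 1`. There are `0 < η < 1` and `x₀` such that for all integers `x ≥ x₀` and
`y ≥ x (log x)^(1 - η)`, with `Q` the set of the primes `p` such that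
`exp (η log x / log log x) < p ≤ x^θ`: of the `∏ p ∈ Q, p` choices of a residue class `b p` modulo
`p` for each `p ∈ Q`, at most `exp (-(log x)^(1 + η)) * ∏ p ∈ Q, p` can be completed by residue
classes for the other primes `p ≤ x` to a covering of `{1, …, y}`. -/
theorem result {θ : ℝ} (h0 : Real.exp (-1) < θ) (h1 : θ < 1) :
    ∃ η x₀ : ℝ, 0 < η ∧ η < 1 ∧ ∀ x y : ℕ, x₀ ≤ x → x * Real.log x ^ (1 - η) ≤ y →
      ∀ Q : Finset ℕ, (∀ p, p ∈ Q ↔ p.Prime ∧
        Real.exp (η * Real.log x / Real.log (Real.log x)) < p ∧ (p : ℝ) ≤ (x : ℝ) ^ θ) →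
      (({b : (p : ℕ) → p ∈ Q → ℕ | b ∈ Q.pi Finset.range ∧
        ∃ a : ℕ → ℤ, (∀ p (hp : p ∈ Q), a p = b p hp) ∧
          ∀ n : ℕ, 1 ≤ n → n ≤ y →
            ∃ p : ℕ, p.Prime ∧ p ≤ x ∧ (n : ℤ) ≡ a p [ZMOD (p : ℤ)]} : Set _).ncard : ℝ) ≤
        Real.exp (-Real.log x ^ (1 + η)) * ∏ p ∈ Q, (p : ℝ) :=
  Pool.MP42e49e.R.main h0 h1

end Pool.Agent.Results.MP_42e49e_nt.RandomMediumClasses
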