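import Pool.Agent.H.MP_42e49e_nt.RS.Main

/-!
# MP_42e49e : the limit of the random sieve in coverings of Erdős–Rankin type

The random residue classes modulo the primes of `(w, z]`, together with a common class `b` for the
primes up to `w` and for most of the primes above `z`, almost never extend to a covering of
`[1, 10^6 x log x log z / (log w log log log x)]`.
-/

set_option autoImplicit false

namespace Pool.Agent.Results.MP_42e49e_nt.RandomSieveLimit

open Real in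
/-- There is `x₀` such that for all integers `x ≥ x₀`, `(log x)^3 ≤ w ≤ z ≤ x` and
`10^6 x log x log z / (log w log log log x) ≤ y ≤ x^3`, with `Q` the set of the primes of `(w, z]`:
of the `∏ p ∈ Q, p` choices of a residue class `r p` modulo `p` for each `p ∈ Q`, at most
`(1 / x) ∏ p ∈ Q, p` can be completed by residue classes `a p` for the other primes `p ≤ x` to a
covering of `{1, …, y}`, such that for some integer `0 ≤ b ≤ y`: `a p ≡ b (mod p)` for all primes
`p ≤ w`, and the sum of `1 / p` over the primes `z < p ≤ x` with `a p ≢ b (mod p)` is at most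
`log log x / (10^6 log x)`. -/
theorem result :
    ∃ x₀ : ℝ, ∀ x y w z : ℕ, x₀ ≤ x → log x ^ 3 ≤ w → w ≤ z → z ≤ x →
      10 ^ 6 * (x * log x * log z / (log w * log (log (log x)))) ≤ y → y ≤ x ^ 3 →
      ∀ Q : Finset ℕ, (∀ p, p ∈ Q ↔ p.Prime ∧ w < p ∧ p ≤ z) →
        (({r : (p : ℕ) → p ∈ Q → ℕ | r ∈ Q.pi Finset.range ∧
          ∃ a : ℕ → ℤ, (∀ p (hp : p ∈ Q), a p = r p hp) ∧
            (∃ b : ℕ, b ≤ y ∧ (∀ p : ℕ, p.Prime → p ≤ w → a p ≡ b [ZMOD (p : ℤ)]) ∧
              ∑ p ∈ (Finset.Ioc z x).filter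
                (fun p : ℕ => p.Prime ∧ ¬ a p ≡ b [ZMOD (p : ℤ)]), 1 / (p : ℝ) ≤
                log (log x) / (10 ^ 6 * log x)) ∧
            ∀ n : ℕ, 1 ≤ n → n ≤ y →
              ∃ p : ℕ, p.Prime ∧ p ≤ x ∧ (n : ℤ) ≡ a p [ZMOD (p : ℤ)]} : Set _).ncard : ℝ) ≤
          1 / x * ∏ p ∈ Q, (p : ℝ) := by
  obtain ⟨x₀, h⟩ := Pool.MP42e49e.RS.main
  refine ⟨x₀, fun x y w z hx hw hwz hzx hy hy3 Q hQ => ?_⟩
  refine le_trans ?_ (h x y w z hx hw hwz hzx hy hy3 Q hQ)
  have hfin : ({r : (p : ℕ) → p ∈ Q → ℕ | r ∈ Q.pi Finset.range} : Set _).Finite :=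
    (Q.pi Finset.range).finite_toSet
  norm_cast
  refine Set.ncard_le_ncard ?_ (hfin.subset fun r hr => hr.1)
  rintro r ⟨hr, a, ha, ⟨b, hb, h1, h2⟩, h3⟩
  refine ⟨hr, a, ha, b, hb, h1, ?_, h3⟩
  refine le_trans (le_of_eq ?_) h2
  refine Finset.sum_congr ?_ fun _ _ => rfl
  ext p
  rw [Finset.mem_filter, Finset.mem_filter, Pool.MP42e49e.mem_pw, Finset.mem_Ioc]
  tauto

end Pool.Agent.Results.MP_42e49e_nt.RandomSieveLimit
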